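import Pool.Agent.Helper86.TH.Stmts

/-! # Row DN2: the interpolation points are dense -/

namespace TH19

open TH MvPolynomial Finset

noncomputable section

variable {K : Type*} [Field K] [CharZero K]

/-- the points -/
def Pt (s : K) (N : ℕ) (w : ℕ → K) (k : ℕ) : K :=
  1 - (1 - s ^ (k + 1)) * ∑ i ∈ range N, (s ^ i) ^ (k + 1) * (1 - w i ^ (k + 1))

/-- the chain rule -/
theorem chain (F : Sy K) : ∃ B0 : ℕ, ∀ B, B0 ≤ B → ∀ c : ℕ → Polynomial K,
    Polynomial.derivative (aeval c F)
      = ∑ j ∈ range B, aeval c (pderiv j F) * Polynomial.derivative (c j) := by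
  induction F using MvPolynomial.induction_on with
  | C a =>
    refine ⟨0, fun B _ c => ?_⟩
    simp
  | add p p' hp hp' =>
    obtain ⟨B1, h1⟩ := hp
    obtain ⟨B2, h2⟩ := hp'
    refine ⟨max B1 B2, fun B hB c => ?_⟩
    rw [map_add, map_add, h1 B (le_trans (le_max_left _ _) hB) c,
      h2 B (le_trans (le_max_right _ _) hB) c, ← sum_add_distrib]
    refine sum_congr rfl fun j _ => ?_
    rw [map_add, map_add, add_mul]
  | mul_X p i hp =>
    obtain ⟨B1, h1⟩ := hp
    refine ⟨max B1 (i + 1), fun B hB c => ?_⟩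
    have hi : i ∈ range B := mem_range.2 (by
      have := le_trans (le_max_right B1 (i + 1)) hB
      omega)
    rw [map_mul, aeval_X, Polynomial.derivative_mul, h1 B (le_trans (le_max_left _ _) hB) c,
      sum_mul]
    have h3 : ∀ j ∈ range B, aeval c (pderiv j (p * X i)) * Polynomial.derivative (c j)
        = aeval c (pderiv j p) * Polynomial.derivative (c j) * c i
          + (if i = j then aeval c p * Polynomial.derivative (c j) else 0) := by
      intro j _
      rw [pderiv_mul, map_add, map_mul, map_mul, aeval_X]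
      by_cases hij : i = j
      · subst hij
        rw [pderiv_X_self, map_one, if_pos rfl]
        ring
      · rw [pderiv_X_of_ne hij, map_zero, if_neg hij]
        ring
    rw [sum_congr rfl h3, sum_add_distrib, sum_ite_eq, if_pos hi]

theorem aeval_eval (c : ℕ → Polynomial K) (x : K) (F : Sy K) :
    Polynomial.eval x (aeval c F) = ev (fun k => Polynomial.eval x (c k)) F := by
  have h : (Polynomial.aeval x).comp (aeval c : Sy K →ₐ[K] Polynomial K)
      = ev (fun k => Polynomial.eval x (c k)) := by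
    refine MvPolynomial.algHom_ext fun i => ?_
    simp [ev, Polynomial.coe_aeval_eq_eval]
  have h1 := congrArg (fun f => f F) h
  simpa [Polynomial.coe_aeval_eq_eval] using h1

/-- one more free coordinate -/
theorem Pt_extend (s : K) (N0 N : ℕ) (hN : N0 ≤ N) (w : ℕ → K) (x : K) (k : ℕ) :
    Pt s (N + 1) (fun i => if i < N0 then w i else if i = N then x else 1) k
      = Pt s N0 w k - (1 - s ^ (k + 1)) * (s ^ N) ^ (k + 1) * (1 - x ^ (k + 1)) := by
  unfold Pt
  rw [sum_range_succ]
  simp only [if_neg (show ¬ N < N0 by omega), if_true]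
  have h1 : ∑ i ∈ range N, (s ^ i) ^ (k + 1) *
      (1 - (if i < N0 then w i else if i = N then x else 1) ^ (k + 1))
      = ∑ i ∈ range N0, (s ^ i) ^ (k + 1) * (1 - w i ^ (k + 1)) := by
    symm
    rw [← sum_subset (range_subset_range.2 hN)]
    · refine sum_congr rfl fun i hi => ?_
      rw [if_pos (mem_range.1 hi)]
    · intro i hi hi'
      rw [mem_range] at hi hi'
      rw [if_neg hi', if_neg (by omega)]
      simp
  rw [h1]
  ring

theorem pderiv_vanish (s : K) (hs : s ≠ 0) (hinj : ∀ a b : ℕ, s ^ a = s ^ b → a = b) (F : Sy K)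
    (hF : ∀ (N : ℕ) (w : ℕ → K), ev (Pt s N w) F = 0) (j : ℕ) (N0 : ℕ) (w : ℕ → K) :
    ev (Pt s N0 w) (pderiv j F) = 0 := by
  obtain ⟨B0, hB0⟩ := chain F
  set B := max B0 (j + 1) with hB
  have hc := hB0 B (le_max_left _ _)
  -- the vanishing of the derivative
  have h1 : ∀ N, N0 ≤ N → ∑ j ∈ range B, ((j : K) + 1) * (1 - s ^ (j + 1)) *
      (s ^ N) ^ (j + 1) * ev (Pt s N0 w) (pderiv j F) = 0 := by
    intro N hN
    set c : ℕ → Polynomial K := fun k => Polynomial.C (Pt s N0 w k) -
      Polynomial.C ((1 - s ^ (k + 1)) * (s ^ N) ^ (k + 1)) * (1 - Polynomial.X ^ (k + 1)) with hcdef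
    have h2 : aeval c F = 0 := by
      refine Polynomial.funext fun x => ?_
      rw [aeval_eval, Polynomial.eval_zero]
      have h3 : (fun k => Polynomial.eval x (c k))
          = Pt s (N + 1) (fun i => if i < N0 then w i else if i = N then x else 1) := by
        funext k
        rw [Pt_extend s N0 N hN w x k, hcdef]
        simp
      rw [h3]
      exact hF _ _
    have h4 := congrArg (fun p => Polynomial.eval 1 (Polynomial.derivative p)) h2
    simp only [Polynomial.derivative_zero, Polynomial.eval_zero] at h4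
    rw [hc c, Polynomial.eval_finsetSum] at h4
    rw [← h4]
    refine sum_congr rfl fun i _ => ?_
    rw [Polynomial.eval_mul, aeval_eval]
    have h5 : (fun k => Polynomial.eval 1 (c k)) = Pt s N0 w := by
      funext k
      rw [hcdef]
      simp
    rw [h5]
    have h6 : Polynomial.eval 1 (Polynomial.derivative (c i))
        = ((i : K) + 1) * (1 - s ^ (i + 1)) * (s ^ N) ^ (i + 1) := by
      rw [hcdef]
      simp [Polynomial.derivative_mul, Polynomial.derivative_X_pow]
      ring
    rw [h6]
    ring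
  -- Vandermonde
  have h2 : (fun i : Fin B => ((i : K) + 1) * (1 - s ^ ((i : ℕ) + 1)) *
      (s ^ N0) ^ ((i : ℕ) + 1) * ev (Pt s N0 w) (pderiv (i : ℕ) F)) = 0 := by
    refine Matrix.eq_zero_of_forall_pow_sum_mul_pow_eq_zero
      (f := fun i : Fin B => s ^ ((i : ℕ) + 1)) ?_ ?_
    · intro a b hab
      have := hinj _ _ hab
      exact Fin.ext (by omega)
    · intro i
      have h3 := h1 (N0 + i) (by omega)
      rw [← Fin.sum_univ_eq_sum_range (fun j => ((j : K) + 1) * (1 - s ^ (j + 1)) *
        (s ^ (N0 + (i : ℕ))) ^ (j + 1) * ev (Pt s N0 w) (pderiv j F)) B] at h3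
      rw [← h3]
      refine sum_congr rfl fun l _ => ?_
      rw [pow_add s N0 i, mul_pow, ← pow_mul s (i : ℕ), ← pow_mul s ((l : ℕ) + 1), mul_comm (i : ℕ)]
      ring
  have h3 := congrFun h2 ⟨j, by
    have := le_max_right B0 (j + 1)
    omega⟩
  simp only [Pi.zero_apply] at h3
  have h4 : ((j : K) + 1) ≠ 0 := by exact_mod_cast Nat.succ_ne_zero j
  have h5 : 1 - s ^ (j + 1) ≠ 0 := by
    intro h
    have := hinj 0 (j + 1) (by rw [pow_zero]; linear_combination h)
    omega
  have h6 : (s ^ N0) ^ (j + 1) ≠ 0 := pow_ne_zero _ (pow_ne_zero _ hs)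
  rcases mul_eq_zero.1 h3 with h7 | h7
  · exact absurd h7 (mul_ne_zero (mul_ne_zero h4 h5) h6)
  · exact h7

theorem totalDegree_pderiv_le (F : Sy K) (d j : ℕ) (h : F.totalDegree ≤ d + 1) :
    (pderiv j F).totalDegree ≤ d := by
  refine Finset.sup_le fun m hm => ?_
  rw [mem_support_iff, coeff_pderiv] at hm
  have h1 : m + Finsupp.single j 1 ∈ F.support := by
    rw [mem_support_iff]
    exact left_ne_zero_of_mul hm
  have h2 := (MvPolynomial.le_totalDegree h1).trans h
  rw [Finsupp.sum_add_index' (by simp) (by intros; rfl), Finsupp.sum_single_index rfl] at h2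
  omega

theorem eq_C_of_pderiv (F : Sy K) (h : ∀ j, pderiv j F = 0) : ∃ a, F = C a := by
  refine ⟨coeff 0 F, ?_⟩
  ext m
  rw [coeff_C]
  by_cases hm : 0 = m
  · rw [if_pos hm, hm]
  · rw [if_neg hm]
    have h1 : ∃ i, m i ≠ 0 := by
      by_contra hcon
      push Not at hcon
      exact hm (Finsupp.ext fun i => by simp [hcon i])
    obtain ⟨i, hi⟩ := h1
    have h2 := coeff_pderiv F (i := i) (m - Finsupp.single i 1)
    rw [h i, coeff_zero] at h2
    have h3 : m - Finsupp.single i 1 + Finsupp.single i 1 = m := by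
      ext l
      by_cases hl : l = i
      · subst hl
        simp
        omega
      · simp [Finsupp.single_apply, Ne.symm hl]
    rw [h3] at h2
    have h4 : (((m - Finsupp.single i 1 : ℕ →₀ ℕ) i : ℕ) : K) + 1 ≠ 0 :=
      Nat.cast_add_one_ne_zero _
    rcases mul_eq_zero.1 h2.symm with h5 | h5
    · exact h5
    · exact absurd h5 h4

theorem st_DN2 (K : Type*) [Field K] [CharZero K] : ST_DN2 K := by
  intro q t hG F hF
  have hs0 : (t⁻¹ : K) ≠ 0 := inv_ne_zero hG.t0
  have hinj : ∀ a b : ℕ, (t⁻¹ : K) ^ a = t⁻¹ ^ b → a = b := by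
    intro a b hab
    have h1 : q ^ (0 : ℤ) * t ^ ((a : ℤ) - b) = 1 := by
      rw [zpow_zero, one_mul, zpow_sub₀ hG.t0, zpow_natCast, zpow_natCast]
      rw [inv_pow, inv_pow] at hab
      have := inv_injective hab
      rw [this]
      exact div_self (pow_ne_zero _ hG.t0)
    have := (hG.ind 0 _ h1).2
    omega
  have key : ∀ d : ℕ, ∀ F : Sy K, F.totalDegree ≤ d →
      (∀ (N : ℕ) (w : ℕ → K), ev (Pt t⁻¹ N w) F = 0) → F = 0 := by
    intro d
    induction d with
    | zero =>
      intro F hd hv
      rw [Nat.le_zero, totalDegree_eq_zero_iff_eq_C] at hd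
      have h1 := hv 0 (fun _ => 0)
      rw [hd] at h1 ⊢
      simp only [ev, algHom_C, Algebra.algebraMap_self, RingHom.id_apply] at h1
      rw [h1, map_zero]
    | succ d ih =>
      intro F hd hv
      have h1 : ∀ j, pderiv j F = 0 := fun j =>
        ih (pderiv j F) (totalDegree_pderiv_le F d j hd)
          fun N w => pderiv_vanish t⁻¹ hs0 hinj F hv j N w
      obtain ⟨a, ha⟩ := eq_C_of_pderiv F h1
      have h2 := hv 0 (fun _ => 0)
      rw [ha] at h2 ⊢
      simp only [ev, algHom_C, Algebra.algebraMap_self, RingHom.id_apply] at h2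
      rw [h2, map_zero]
  exact key F.totalDegree F le_rfl fun N w => hF N w

end

end TH19
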