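import Pool.Agent.Helper86.TH.Stmts

/-! # Row ES: the rectangular Schur function at a negative alphabet -/

namespace TH19

open TH MvPolynomial Finset

noncomputable section

variable {K : Type*} [Field K] [CharZero K]

/-- lower triangular Toeplitz matrices -/
def Tz (k : ℕ) (B : ℕ → K) : Matrix (Fin (k + 1)) (Fin (k + 1)) K :=
  Matrix.of fun i j => if (j : ℕ) ≤ i then B ((i : ℕ) - j) else 0

theorem Tz_mul (k : ℕ) (C B : ℕ → K) (c : K)
    (h : ∀ n, ∑ p ∈ antidiagonal n, C p.1 * B p.2 = if n = 0 then c else 0) :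
    Tz k C * Tz k B = c • 1 := by
  ext i j
  rw [Matrix.mul_apply, Matrix.smul_apply, Matrix.one_apply, smul_eq_mul]
  have h1 : ∑ l : Fin (k + 1), Tz k C i l * Tz k B l j
      = ∑ l ∈ range (k + 1), (if l ≤ (i : ℕ) then C ((i : ℕ) - l) else 0) *
        (if (j : ℕ) ≤ l then B (l - j) else 0) :=
    Fin.sum_univ_eq_sum_range (fun l => (if l ≤ (i : ℕ) then C ((i : ℕ) - l) else 0) *
        (if (j : ℕ) ≤ l then B (l - j) else 0)) (k + 1)
  rw [h1]
  have h2 : ∑ l ∈ range (k + 1), (if l ≤ (i : ℕ) then C ((i : ℕ) - l) else 0) *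
        (if (j : ℕ) ≤ l then B (l - j) else 0)
      = ∑ l ∈ Ico (j : ℕ) (i + 1), (if l ≤ (i : ℕ) then C ((i : ℕ) - l) else 0) *
        (if (j : ℕ) ≤ l then B (l - j) else 0) := by
    symm
    refine sum_subset ?_ ?_
    · intro l hl
      rw [mem_Ico] at hl
      rw [mem_range]
      have := i.2
      omega
    · intro l _ hl
      rw [mem_Ico] at hl
      by_cases h3 : (j : ℕ) ≤ l
      · rw [if_neg (show ¬ l ≤ (i : ℕ) by omega), zero_mul]
      · rw [if_neg h3, mul_zero]
  rw [h2, sum_Ico_eq_sum_range]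
  by_cases hij : (j : ℕ) ≤ i
  · have h3 : ∀ b ∈ range ((i : ℕ) + 1 - j),
        (if (j : ℕ) + b ≤ (i : ℕ) then C ((i : ℕ) - (j + b)) else 0) *
          (if (j : ℕ) ≤ j + b then B (j + b - j) else 0) = C (((i : ℕ) - j) - b) * B b := by
      intro b hb
      rw [mem_range] at hb
      rw [if_pos (by omega), if_pos (by omega)]
      congr 2
      · omega
      · omega
    rw [sum_congr rfl h3]
    have h4 := h ((i : ℕ) - j)
    rw [← Finset.Nat.sum_antidiagonal_swap, Finset.Nat.sum_antidiagonal_eq_sum_range_succ_mk] at h4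
    have h5 : (i : ℕ) + 1 - j = ((i : ℕ) - j).succ := by omega
    rw [h5]
    simp only [Prod.swap_prod_mk, Prod.fst_swap, Prod.snd_swap] at h4
    rw [h4]
    by_cases h6 : i = j
    · subst h6
      simp
    · rw [if_neg h6, if_neg]
      · ring
      · intro h7
        exact h6 (Fin.ext (by omega))
  · have h3 : (i : ℕ) + 1 - j = 0 := by omega
    rw [h3, range_zero, sum_empty, if_neg, mul_zero]
    rintro rfl
    exact hij le_rfl

theorem Tz_det (k : ℕ) (B : ℕ → K) : (Tz k B).det = B 0 ^ (k + 1) := by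
  have h : (Tz k B).BlockTriangular OrderDual.toDual := by
    intro i j hij
    have h1 : (i : ℕ) < j := hij
    simp only [Tz, Matrix.of_apply]
    rw [if_neg (by omega)]
  rw [Matrix.det_of_lowerTriangular _ h]
  simp [Tz]

/-- the determinant of a Hessenberg Toeplitz matrix -/
theorem hess_det (k : ℕ) (B C : ℕ → K) (c : K) (hc : c ≠ 0) (hB : B 0 = c)
    (h : ∀ n, ∑ p ∈ antidiagonal n, C p.1 * B p.2 = if n = 0 then c else 0) :
    (Matrix.of fun i j : Fin k => if (j : ℕ) ≤ i + 1 then B ((i : ℕ) + 1 - j) else 0).det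
      = (-1) ^ k * (c ^ k * C k) := by
  have h1 := Tz_mul k C B c h
  have h2 : Matrix.adjugate (Tz k B) = c ^ k • Tz k C := by
    have h3 : c • Matrix.adjugate (Tz k B) = c • (c ^ k • Tz k C) := by
      calc c • Matrix.adjugate (Tz k B) = (c • (1 : Matrix _ _ K)) * Matrix.adjugate (Tz k B) := by
            rw [Matrix.smul_mul, Matrix.one_mul]
        _ = Tz k C * (Tz k B * Matrix.adjugate (Tz k B)) := by
            rw [← h1, Matrix.mul_assoc]
        _ = (Tz k B).det • Tz k C := by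
            rw [Matrix.mul_adjugate, Matrix.mul_smul, Matrix.mul_one]
        _ = c • (c ^ k • Tz k C) := by
            rw [Tz_det, hB, smul_smul, pow_succ, mul_comm]
    exact smul_right_injective _ hc h3
  have h3 := Matrix.adjugate_fin_succ_eq_det_submatrix (Tz k B) (Fin.last k) 0
  rw [h2] at h3
  have h4 : (Tz k B).submatrix (Fin.succAbove 0) (Fin.succAbove (Fin.last k))
      = Matrix.of fun i j : Fin k => if (j : ℕ) ≤ i + 1 then B ((i : ℕ) + 1 - j) else 0 := by
    ext i j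
    simp only [Tz, Matrix.submatrix_apply, Matrix.of_apply, Fin.zero_succAbove, Fin.succAbove_last,
      Fin.val_succ, Fin.val_castSucc]
  rw [h4] at h3
  have h5 : (c ^ k • Tz k C) (Fin.last k) 0 = c ^ k * C k := by
    simp [Tz]
  rw [h5] at h3
  rw [h3]
  simp only [Fin.val_zero, Fin.val_last, zero_add]
  rw [← mul_assoc, ← mul_pow]
  norm_num

/-- elementary symmetric function at a point -/
def Ev {m : ℕ} (x : Fin m → K) (d : ℕ) : K :=
  ∑ S ∈ powersetCard d (univ : Finset (Fin m)), ∏ i ∈ S, x i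

/-- complete symmetric function at a point -/
def Hv {m : ℕ} (x : Fin m → K) (d : ℕ) : K :=
  ∑ α ∈ Finset.piAntidiag (univ : Finset (Fin m)) d, ∏ i, x i ^ (α i)

theorem eval_hh (hEH : ST_EH K) {m : ℕ} (x : Fin m → K) (d : ℕ) :
    eval x (evz K m (hh K d)) = (-1) ^ d * Ev x d := by
  rw [(hEH m d).1]
  simp [Ev]

theorem eval_ee (hEH : ST_EH K) {m : ℕ} (x : Fin m → K) (d : ℕ) :
    eval x (evz K m (ee K d)) = (-1) ^ d * Hv x d := by
  rw [(hEH m d).2]
  simp [Hv]

theorem conv (hEH : ST_EH K) {m : ℕ} (x : Fin m → K) (n : ℕ) :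
    ∑ p ∈ antidiagonal n, Hv x p.1 * ((-1) ^ p.2 * Ev x p.2) = if n = 0 then 1 else 0 := by
  have h1 := hc_neg_conv (fun j => (X j : Sy K)) n
  have h2 := congrArg (fun p => eval x (evz K m p)) h1
  simp only [map_sum, map_mul] at h2
  have h3 : eval x (evz K m (if n = 0 then (1 : Sy K) else 0)) = if n = 0 then (1 : K) else 0 := by
    split_ifs <;> simp
  rw [h3] at h2
  rw [← h2]
  refine sum_congr rfl fun p _ => ?_
  have h4 : eval x (evz K m (hc (fun j => -(X j : Sy K)) p.1)) = Hv x p.1 := by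
    rw [hc_sign]
    have h5 := eval_ee hEH x p.1
    unfold ee at h5
    rw [map_mul, map_mul, h5, ← mul_assoc]
    simp only [map_pow, map_neg, map_one]
    rw [← mul_pow]
    norm_num
  rw [h4]
  congr 1
  exact (eval_hh hEH x p.2).symm

theorem Ev_inv {m : ℕ} (x : Fin m → K) (hx : ∀ i, x i ≠ 0) (s : ℕ) (hs : s ≤ m) :
    (∏ i, x i) * Ev (fun i => (x i)⁻¹) s = Ev x (m - s) := by
  unfold Ev
  rw [mul_sum]
  refine sum_nbij' (fun S => Sᶜ) (fun S => Sᶜ) ?_ ?_ ?_ ?_ ?_
  · intro S hS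
    rw [mem_powersetCard] at hS ⊢
    refine ⟨subset_univ _, ?_⟩
    rw [card_compl, Fintype.card_fin, hS.2]
  · intro S hS
    rw [mem_powersetCard] at hS ⊢
    refine ⟨subset_univ _, ?_⟩
    rw [card_compl, Fintype.card_fin, hS.2]
    omega
  · intro S _
    exact compl_compl S
  · intro S _
    exact compl_compl S
  · intro S _
    rw [← prod_mul_prod_compl S x, prod_inv_distrib]
    have : ∏ i ∈ S, x i ≠ 0 := prod_ne_zero_iff.2 fun i _ => hx i
    field_simp

theorem Ev_large {m : ℕ} (x : Fin m → K) (s : ℕ) (hs : m < s) : Ev x s = 0 := by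
  unfold Ev
  rw [powersetCard_eq_empty.2 (by rw [card_univ, Fintype.card_fin]; exact hs), sum_empty]

theorem es_point (hEH : ST_EH K) (m k : ℕ) (hm : 0 < m) (x : Fin m → K) (hx : ∀ i, x i ≠ 0) :
    eval x (evz K m (schur K k (fun _ => m - 1)))
      = (-1) ^ (k * (m - 1)) *
        ∑ γ ∈ Finset.piAntidiag (univ : Finset (Fin m)) k, ∏ i, x i ^ (k - γ i) := by
  set P : K := ∏ i, x i with hP
  have hP0 : P ≠ 0 := prod_ne_zero_iff.2 fun i _ => hx i
  set c : K := (-1) ^ m * P with hc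
  have hc0 : c ≠ 0 := mul_ne_zero (pow_ne_zero _ (by norm_num)) hP0
  set B : ℕ → K := fun s => c * ((-1) ^ s * Ev (fun i => (x i)⁻¹) s) with hB
  have hconv : ∀ n, ∑ p ∈ antidiagonal n, Hv (fun i => (x i)⁻¹) p.1 * B p.2
      = if n = 0 then c else 0 := by
    intro n
    have h1 := conv hEH (fun i => (x i)⁻¹) n
    have h2 : ∑ p ∈ antidiagonal n, Hv (fun i => (x i)⁻¹) p.1 * B p.2
        = c * ∑ p ∈ antidiagonal n, Hv (fun i => (x i)⁻¹) p.1 *
          ((-1) ^ p.2 * Ev (fun i => (x i)⁻¹) p.2) := by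
      rw [mul_sum]
      refine sum_congr rfl fun p _ => ?_
      rw [hB]
      ring
    rw [h2, h1]
    split_ifs <;> ring
  have hB0 : B 0 = c := by
    simp [hB, Ev]
  have hdet := hess_det k B (Hv (fun i => (x i)⁻¹)) c hc0 hB0 hconv
  have hBs : ∀ s, s ≤ m → B s = (-1) ^ (m - s) * Ev x (m - s) := by
    intro s hs
    rw [← Ev_inv x hx s hs, hB, hc]
    have h1 : (-1 : K) ^ m = (-1) ^ (m - s) * (-1) ^ s := by
      rw [← pow_add]
      congr 1
      omega
    have h2 : ((-1 : K) ^ s) * (-1) ^ s = 1 := by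
      rw [← mul_pow]
      norm_num
    rw [h1]
    calc (-1) ^ (m - s) * (-1) ^ s * P * ((-1) ^ s * Ev (fun i => (x i)⁻¹) s)
        = (-1) ^ (m - s) * (((-1) ^ s) * (-1) ^ s) * (P * Ev (fun i => (x i)⁻¹) s) := by ring
      _ = _ := by rw [h2, hP]; ring
  have hBl : ∀ s, m < s → B s = 0 := by
    intro s hs
    rw [hB]
    simp only [Ev_large _ s hs, mul_zero]
  -- the matrix
  have hmat : eval x (evz K m (schur K k (fun _ => m - 1)))
      = (Matrix.of fun i j : Fin k => if (j : ℕ) ≤ i + 1 then B ((i : ℕ) + 1 - j) else 0).det := by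
    have h1 : eval x (evz K m (schur K k (fun _ => m - 1)))
        = ((eval x).comp (evz K m : Sy K →+* MvPolynomial (Fin m) K))
          (schur K k (fun _ => m - 1)) := rfl
    rw [h1]
    unfold schur
    rw [RingHom.map_det]
    congr 1
    ext i j
    simp only [RingHom.mapMatrix_apply, Matrix.map_apply, Matrix.of_apply, RingHom.comp_apply,
      RingHom.coe_coe]
    by_cases h2 : (j : ℕ) ≤ i + 1
    · rw [if_pos h2]
      by_cases h3 : (i : ℕ) + 1 - j ≤ m
      · rw [hBs _ h3]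
        have h4 : ((m - 1 : ℕ) : ℤ) - (i : ℤ) + (j : ℤ) = ((m - (i + 1 - j) : ℕ) : ℤ) := by
          omega
        rw [h4, hz, if_pos (Int.natCast_nonneg _), Int.toNat_natCast]
        exact eval_hh hEH x _
      · rw [hBl _ (by omega), hz, if_neg (by omega)]
        simp
    · rw [if_neg h2]
      have h4 : ((m - 1 : ℕ) : ℤ) - (i : ℤ) + (j : ℤ) = ((m - 1 + (j - i) : ℕ) : ℤ) := by
        omega
      rw [h4, hz, if_pos (Int.natCast_nonneg _), Int.toNat_natCast]
      refine (eval_hh hEH x _).trans ?_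
      rw [Ev_large _ _ (by omega), mul_zero]
  rw [hmat, hdet]
  have h5 : P ^ k * Hv (fun i => (x i)⁻¹) k
      = ∑ γ ∈ Finset.piAntidiag (univ : Finset (Fin m)) k, ∏ i, x i ^ (k - γ i) := by
    unfold Hv
    rw [mul_sum]
    refine sum_congr rfl fun γ hγ => ?_
    rw [hP, ← prod_pow, ← prod_mul_distrib]
    refine prod_congr rfl fun i _ => ?_
    rw [mem_piAntidiag] at hγ
    have h6 : γ i ≤ k := by
      rw [← hγ.1]
      exact single_le_sum (fun _ _ => Nat.zero_le _) (mem_univ i)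
    rw [pow_sub₀ _ (hx i) h6, inv_pow]
  rw [← h5, hc, mul_pow, ← pow_mul]
  have h7 : (-1 : K) ^ k * (-1) ^ (m * k) = (-1) ^ (k * (m - 1)) := by
    obtain ⟨m', rfl⟩ : ∃ m', m = m' + 1 := ⟨m - 1, by omega⟩
    rw [← pow_add, Nat.add_sub_cancel]
    have : k + (m' + 1) * k = k * m' + 2 * k := by ring
    rw [this, pow_add, pow_mul (-1 : K) 2 k]
    norm_num
  rw [← h7]
  ring

theorem st_ES (K : Type*) [Field K] [CharZero K] (hEH : ST_EH K) : ST_ES K := by
  intro m k hm
  have h1 : (∏ i, (X i : MvPolynomial (Fin m) K)) *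
      (evz K m (schur K k (fun _ => m - 1)) - (-1) ^ (k * (m - 1)) *
        ∑ γ ∈ Finset.piAntidiag (univ : Finset (Fin m)) k, ∏ i, X i ^ (k - γ i)) = 0 := by
    refine MvPolynomial.funext fun x => ?_
    rw [map_mul, map_zero]
    by_cases hx : ∀ i, x i ≠ 0
    · have h2 := es_point hEH m k hm x hx
      have h3 : eval x (evz K m (schur K k (fun _ => m - 1)) - (-1) ^ (k * (m - 1)) *
          ∑ γ ∈ Finset.piAntidiag (univ : Finset (Fin m)) k, ∏ i, X i ^ (k - γ i)) = 0 := by
        rw [map_sub, h2]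
        simp
      rw [h3, mul_zero]
    · push Not at hx
      obtain ⟨i, hi⟩ := hx
      have h3 : eval x (∏ i, (X i : MvPolynomial (Fin m) K)) = 0 := by
        rw [map_prod]
        exact prod_eq_zero (mem_univ i) (by simp [hi])
      rw [h3, zero_mul]
  rcases mul_eq_zero.1 h1 with h2 | h2
  · exact absurd h2 (prod_ne_zero_iff.2 fun i _ => X_ne_zero i)
  · exact sub_eq_zero.1 h2

end

end TH19
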